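import Mathlib

/-!
# Polynomials with two critical values all of whose fixed points have multiplier `≤ 0.99 deg`

`p_m(z) = ∫₀ᶻ (1-t²)^m dt / ∫₀¹ (1-t²)^m dt` has degree `2m+1`, exactly two critical values, and
for `m ≥ 100` every fixed point multiplier has modulus at most `(99/100) (2m+1)`.
-/

set_option autoImplicit false

open Polynomial Set MeasureTheory

namespace Pool.Agent.Results.MP_b61545_an.DoubleStar

/-- The set of critical values. -/
def critValues (p : ℂ[X]) : Set ℂ := (fun z => p.eval z) '' {z | p.derivative.eval z = 0}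

/-- The number of critical values. -/
noncomputable def cv (p : ℂ[X]) : ℕ := (critValues p).ncard

/-- The set of moduli of multipliers of fixed points. -/
def multModuli (p : ℂ[X]) : Set ℝ := {x | ∃ ξ : ℂ, p.eval ξ = ξ ∧ x = ‖p.derivative.eval ξ‖}

/-- The largest modulus of a fixed point multiplier. -/
noncomputable def Lam (p : ℂ[X]) : ℝ := sSup (multModuli p)

noncomputable def q (m : ℕ) : ℂ[X] :=
  ∑ k ∈ Finset.range (m + 1), C ((-1 : ℂ) ^ k * (m.choose k) / (2 * k + 1)) * X ^ (2 * k + 1)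

lemma derivative_q (m : ℕ) : derivative (q m) = (1 - X ^ 2) ^ m := by
  have h0 : (1 - X ^ 2 : ℂ[X]) ^ m = (-X ^ 2 + 1) ^ m := by ring
  rw [h0, add_pow]
  unfold q
  rw [derivative_sum]
  apply Finset.sum_congr rfl
  intro k _
  have hk : (2 * (k : ℂ) + 1) ≠ 0 := by exact_mod_cast (by omega : 2 * k + 1 ≠ 0)
  have h1 : C ((-1 : ℂ) ^ k * (m.choose k) / (2 * k + 1)) * (C (2 * (k : ℂ) + 1)) =
      (-1) ^ k * (m.choose k : ℂ[X]) := by
    rw [← C_mul, div_mul_cancel₀ _ hk]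
    simp
  have h2 : C ((2 * k + 1 : ℕ) : ℂ) = C (2 * (k : ℂ) + 1) := by
    congr 1; push_cast; ring
  rw [derivative_C_mul, derivative_X_pow, Nat.add_sub_cancel, h2, ← mul_assoc, h1,
    one_pow, mul_one, neg_pow (X ^ 2 : ℂ[X]), ← pow_mul]
  ring

lemma q_neg (m : ℕ) (z : ℂ) : (q m).eval (-z) = -(q m).eval z := by
  unfold q
  rw [eval_finsetSum, eval_finsetSum, ← Finset.sum_neg_distrib]
  apply Finset.sum_congr rfl
  intro k _
  simp only [eval_mul, eval_C, eval_pow, eval_X]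
  rw [Odd.neg_pow ⟨k, rfl⟩]
  ring

lemma q_zero (m : ℕ) : (q m).eval 0 = 0 := by
  have := q_neg m 0
  rw [neg_zero] at this
  have h2 : (2 : ℂ) * (q m).eval 0 = 0 := by linear_combination this
  simpa using h2

/-- the normalising constant -/
noncomputable def I (m : ℕ) : ℝ := ∫ s in (0 : ℝ)..1, (1 - s ^ 2) ^ m

lemma q_one (m : ℕ) : (q m).eval 1 = (I m : ℂ) := by
  have h : ∫ s in (0 : ℝ)..1, (((1 - s ^ 2) ^ m : ℝ) : ℂ) = (q m).eval 1 - (q m).eval 0 := by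
    have hd : ∀ s ∈ uIcc (0 : ℝ) 1,
        HasDerivAt (fun s : ℝ => (q m).eval (s : ℂ)) (((1 - s ^ 2) ^ m : ℝ) : ℂ) s := by
      intro s _
      have h1 := ((q m).hasDerivAt (s : ℂ)).comp_ofReal
      rw [derivative_q] at h1
      simpa using h1
    have h2 := intervalIntegral.integral_eq_sub_of_hasDerivAt hd
      (Continuous.intervalIntegrable (by fun_prop) _ _)
    simpa using h2
  rw [intervalIntegral.integral_ofReal, q_zero, sub_zero] at h
  rw [← h]; rfl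

lemma I_le_one (m : ℕ) : I m ≤ 1 := by
  have h : I m ≤ ∫ s in (0 : ℝ)..1, (1 : ℝ) := by
    apply intervalIntegral.integral_mono_on zero_le_one
      (Continuous.intervalIntegrable (by fun_prop) _ _)
      (Continuous.intervalIntegrable (by fun_prop) _ _)
    intro s hs
    apply pow_le_one₀
    · nlinarith [hs.1, hs.2]
    · nlinarith [hs.1, hs.2]
  simpa using h

lemma I_ge (m : ℕ) : 1 / (m + 1 : ℝ) ≤ I m := by
  have h : ∫ s in (0 : ℝ)..1, (1 - s) ^ m ≤ I m := by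
    apply intervalIntegral.integral_mono_on zero_le_one
      (Continuous.intervalIntegrable (by fun_prop) _ _)
      (Continuous.intervalIntegrable (by fun_prop) _ _)
    intro s hs
    apply pow_le_pow_left₀
    · linarith [hs.2]
    · nlinarith [hs.1, hs.2]
  have h2 : ∫ s in (0 : ℝ)..1, (1 - s) ^ m = 1 / (m + 1 : ℝ) := by
    rw [intervalIntegral.integral_comp_sub_left (fun x => x ^ m) 1]
    simp [integral_pow]
  rw [← h2]; exact h

lemma I_pos (m : ℕ) : 0 < I m := lt_of_lt_of_le (by positivity) (I_ge m)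

/-- the polynomial -/
noncomputable def p (m : ℕ) : ℂ[X] := C ((I m : ℂ)⁻¹) * q m

lemma p_eval (m : ℕ) (z : ℂ) : (p m).eval z = (I m : ℂ)⁻¹ * (q m).eval z := by
  simp [p]

lemma p_deriv_eval (m : ℕ) (z : ℂ) :
    (derivative (p m)).eval z = (I m : ℂ)⁻¹ * (1 - z ^ 2) ^ m := by
  unfold p
  rw [derivative_C_mul, derivative_q]
  simp

lemma Ic_ne (m : ℕ) : (I m : ℂ) ≠ 0 := by exact_mod_cast (I_pos m).ne'

lemma p_one (m : ℕ) : (p m).eval 1 = 1 := by
  rw [p_eval, q_one, inv_mul_cancel₀ (Ic_ne m)]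

lemma p_neg (m : ℕ) (z : ℂ) : (p m).eval (-z) = -(p m).eval z := by
  rw [p_eval, p_eval, q_neg]; ring

/-- the path from `1` to `ξ` along which `1 - t²` is radial -/
noncomputable def T (ξ : ℂ) (s : ℂ) : ℂ := (1 + s * (ξ ^ 2 - 1)) ^ (2⁻¹ : ℂ)

lemma T_sq (ξ s : ℂ) : T ξ s ^ 2 = 1 + s * (ξ ^ 2 - 1) := by
  unfold T
  have := Complex.cpow_nat_inv_pow (1 + s * (ξ ^ 2 - 1)) (n := 2) (by norm_num)
  simpa using this

lemma T_zero (ξ : ℂ) : T ξ 0 = 1 := by simp [T]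

lemma T_one {ξ : ℂ} (h : 0 < ξ.re) : T ξ 1 = ξ := by
  unfold T
  have : 1 + 1 * (ξ ^ 2 - 1) = ξ ^ 2 := by ring
  rw [this]
  exact Complex.sq_cpow_two_inv h

lemma slit {ξ : ℂ} (h : 0 < ξ.re) {τ : ℝ} (hτ : τ ∈ Icc (0 : ℝ) 1) :
    1 + (τ : ℂ) * (ξ ^ 2 - 1) ∈ Complex.slitPlane := by
  rw [Complex.mem_slitPlane_iff]
  have hre : (1 + (τ : ℂ) * (ξ ^ 2 - 1)).re = (1 - τ) + τ * (ξ.re ^ 2 - ξ.im ^ 2) := by
    simp [sq]; ring
  have him : (1 + (τ : ℂ) * (ξ ^ 2 - 1)).im = τ * (2 * ξ.re * ξ.im) := by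
    simp only [sq, Complex.add_im, Complex.one_im, Complex.mul_im, Complex.ofReal_re,
      Complex.ofReal_im, Complex.sub_im, Complex.sub_re, Complex.mul_re, Complex.one_re]
    ring
  by_cases h0 : τ * ξ.im = 0
  · left
    rw [hre]
    rcases mul_eq_zero.mp h0 with h1 | h1
    · rw [h1]; norm_num
    · rw [h1]
      have h2 : 0 < ξ.re ^ 2 := by positivity
      rcases eq_or_lt_of_le hτ.1 with h3 | h3
      · rw [← h3]; norm_num
      · nlinarith [hτ.2, mul_pos h3 h2]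
  · right
    rw [him]
    intro h1
    apply h0
    have : (2 * ξ.re) * (τ * ξ.im) = 0 := by linarith
    rcases mul_eq_zero.mp this with h2 | h2
    · linarith
    · exact h2

lemma T_re_pos {ξ : ℂ} (h : 0 < ξ.re) {τ : ℝ} (hτ : τ ∈ Icc (0 : ℝ) 1) : 0 < (T ξ τ).re := by
  unfold T
  rw [Complex.cpow_inv_two_re]
  apply Real.sqrt_pos.mpr
  have hs := slit h hτ
  rw [Complex.mem_slitPlane_iff] at hs
  rcases hs with h1 | h1
  · have := norm_nonneg (1 + (τ : ℂ) * (ξ ^ 2 - 1))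
    linarith
  · have := Complex.abs_re_lt_norm.mpr h1
    have := neg_abs_le (1 + (τ : ℂ) * (ξ ^ 2 - 1)).re
    linarith

lemma T_ne {ξ : ℂ} (h : 0 < ξ.re) {τ : ℝ} (hτ : τ ∈ Icc (0 : ℝ) 1) : T ξ τ ≠ 0 := by
  intro h0
  have := T_re_pos h hτ
  rw [h0] at this
  simp at this

lemma T_deriv {ξ : ℂ} (h : 0 < ξ.re) {τ : ℝ} (hτ : τ ∈ Icc (0 : ℝ) 1) :
    HasDerivAt (T ξ) ((ξ ^ 2 - 1) / (2 * T ξ τ)) (τ : ℂ) := by
  have h1 : HasDerivAt (fun s : ℂ => 1 + s * (ξ ^ 2 - 1)) (ξ ^ 2 - 1) (τ : ℂ) := by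
    simpa using ((hasDerivAt_id (τ : ℂ)).mul_const (ξ ^ 2 - 1)).const_add 1
  have h2 := h1.cpow_const (c := 2⁻¹) (slit h hτ)
  refine h2.congr_deriv ?_
  have hne := T_ne h hτ
  have h3 : (1 + (τ : ℂ) * (ξ ^ 2 - 1)) ^ ((2⁻¹ : ℂ) - 1) = (T ξ τ)⁻¹ := by
    unfold T
    rw [← Complex.cpow_neg]
    norm_num
  rw [h3]
  field_simp

/-- `F(ξ) = ∫₀¹ τ^m / T(τ) dτ` -/
noncomputable def F (m : ℕ) (ξ : ℂ) : ℂ := ∫ τ in (0 : ℝ)..1, (τ : ℂ) ^ m / T ξ τ

lemma T_contOn {ξ : ℂ} (h : 0 < ξ.re) : ContinuousOn (fun τ : ℝ => T ξ τ) (Icc 0 1) := by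
  intro τ hτ
  exact (T_deriv h hτ).comp_ofReal.continuousAt.continuousWithinAt

lemma integrand_contOn (m : ℕ) {ξ : ℂ} (h : 0 < ξ.re) :
    ContinuousOn (fun τ : ℝ => (τ : ℂ) ^ m / T ξ τ) (Icc 0 1) := by
  apply ContinuousOn.div
  · fun_prop
  · exact T_contOn h
  · intro τ hτ; exact T_ne h hτ

lemma q_sub (m : ℕ) {ξ : ℂ} (h : 0 < ξ.re) :
    (q m).eval ξ - (q m).eval 1 = -((1 - ξ ^ 2) ^ (m + 1) / 2) * F m ξ := by
  have hd : ∀ τ ∈ uIcc (0 : ℝ) 1, HasDerivAt (fun s : ℝ => (q m).eval (T ξ s))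
      (-((1 - ξ ^ 2) ^ (m + 1) / 2) * ((τ : ℂ) ^ m / T ξ τ)) τ := by
    intro τ hτ
    rw [uIcc_of_le zero_le_one] at hτ
    have h1 := (((q m).hasDerivAt (T ξ τ)).comp (τ : ℂ) (T_deriv h hτ)).comp_ofReal
    refine h1.congr_deriv ?_
    rw [derivative_q]
    simp only [eval_pow, eval_sub, eval_one, eval_X]
    rw [T_sq]
    have hne := T_ne h hτ
    have e : 1 - (1 + (τ : ℂ) * (ξ ^ 2 - 1)) = τ * (1 - ξ ^ 2) := by ring
    rw [e, mul_pow]
    field_simp
    ring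
  have h2 := intervalIntegral.integral_eq_sub_of_hasDerivAt hd (by
    apply ContinuousOn.intervalIntegrable
    rw [uIcc_of_le zero_le_one]
    exact continuousOn_const.mul (integrand_contOn m h))
  rw [intervalIntegral.integral_const_mul] at h2
  simp only [Complex.ofReal_one, Complex.ofReal_zero, T_zero, T_one h] at h2
  rw [← h2]; rfl

/-- the key identity at a fixed point -/
lemma key (m : ℕ) {ξ : ℂ} (h : 0 < ξ.re) (hfix : (p m).eval ξ = ξ) (h1 : ξ ≠ 1) :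
    (derivative (p m)).eval ξ * ((1 + ξ) * F m ξ) = 2 := by
  have hq := q_sub m h
  rw [q_one] at hq
  rw [p_eval] at hfix
  have hI := Ic_ne m
  have h2 : (q m).eval ξ = (I m : ℂ) * ξ := by
    have := congrArg (fun x => (I m : ℂ) * x) hfix
    simpa [mul_inv_cancel_left₀ hI] using this
  rw [h2] at hq
  rw [p_deriv_eval]
  have h3 : (1 - ξ) ≠ 0 := sub_ne_zero.mpr (Ne.symm h1)
  have h4 : (1 - ξ) * ((I m : ℂ)⁻¹ * (1 - ξ ^ 2) ^ m * ((1 + ξ) * F m ξ)) = (1 - ξ) * 2 := by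
    have h5 : (1 - ξ) * ((I m : ℂ)⁻¹ * (1 - ξ ^ 2) ^ m * ((1 + ξ) * F m ξ)) =
        (I m : ℂ)⁻¹ * (-2) * (-((1 - ξ ^ 2) ^ (m + 1) / 2) * F m ξ) := by
      rw [pow_succ]; ring
    rw [h5, ← hq]
    field_simp
    ring
  exact mul_left_cancel₀ h3 h4

/-- lower bound for `|F|` from a pointwise bound -/
lemma F_lower (m : ℕ) {ξ : ℂ} (h : 0 < ξ.re) (u : ℂ) (κ l : ℝ)
    (hb : ∀ τ ∈ Icc (0 : ℝ) 1, κ * τ - l ≤ (u / T ξ τ).re) :
    κ / (m + 2) - l / (m + 1) ≤ ‖u‖ * ‖F m ξ‖ := by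
  have hcont := integrand_contOn m h
  have hint : IntervalIntegrable (fun τ : ℝ => (τ : ℂ) ^ m / T ξ τ) volume 0 1 := by
    apply ContinuousOn.intervalIntegrable
    rwa [uIcc_of_le zero_le_one]
  have h1 : (u * F m ξ).re = ∫ τ in (0 : ℝ)..1, (u * ((τ : ℂ) ^ m / T ξ τ)).re := by
    unfold F
    rw [← intervalIntegral.integral_const_mul]
    have := Complex.reCLM.intervalIntegral_comp_comm (hint.const_mul u)
    simpa using this.symm
  have h2 : ∫ τ in (0 : ℝ)..1, τ ^ m * (κ * τ - l) ≤ (u * F m ξ).re := by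
    rw [h1]
    apply intervalIntegral.integral_mono_on zero_le_one
      (Continuous.intervalIntegrable (by fun_prop) _ _)
    · apply ContinuousOn.intervalIntegrable
      rw [uIcc_of_le zero_le_one]
      exact Complex.continuous_re.comp_continuousOn (continuousOn_const.mul hcont)
    · intro τ hτ
      have e : (u * ((τ : ℂ) ^ m / T ξ τ)).re = τ ^ m * (u / T ξ τ).re := by
        have : u * ((τ : ℂ) ^ m / T ξ τ) = ((τ ^ m : ℝ) : ℂ) * (u / T ξ τ) := by
          push_cast; ring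
        rw [this, Complex.re_ofReal_mul]
      rw [e]
      exact mul_le_mul_of_nonneg_left (hb τ hτ) (pow_nonneg hτ.1 m)
  have h3 : ∫ τ in (0 : ℝ)..1, τ ^ m * (κ * τ - l) = κ / (m + 2) - l / (m + 1) := by
    have e : ∀ τ : ℝ, τ ^ m * (κ * τ - l) = κ * τ ^ (m + 1) - l * τ ^ m := by
      intro τ; rw [pow_succ]; ring
    simp_rw [e]
    rw [intervalIntegral.integral_sub (Continuous.intervalIntegrable (by fun_prop) _ _)
      (Continuous.intervalIntegrable (by fun_prop) _ _), intervalIntegral.integral_const_mul,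
      intervalIntegral.integral_const_mul, integral_pow, integral_pow]
    simp
    have : (m : ℝ) + 1 + 1 = m + 2 := by ring
    rw [this]
    ring
  rw [← h3]
  calc _ ≤ (u * F m ξ).re := h2
    _ ≤ ‖u * F m ξ‖ := Complex.re_le_norm _
    _ = ‖u‖ * ‖F m ξ‖ := norm_mul _ _

/-- coordinates of the path -/
lemma coords {ξ : ℂ} (h : 0 < ξ.re) {τ : ℝ} (hτ : τ ∈ Icc (0 : ℝ) 1) :
    0 < (T ξ τ).re ∧
    (T ξ τ).re ^ 2 - (T ξ τ).im ^ 2 = (1 - τ) + τ * (ξ.re ^ 2 - ξ.im ^ 2) ∧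
    (T ξ τ).re * (T ξ τ).im = τ * (ξ.re * ξ.im) := by
  refine ⟨T_re_pos h hτ, ?_, ?_⟩
  · have := congrArg Complex.re (T_sq ξ τ)
    simp only [sq, Complex.add_re, Complex.one_re, Complex.mul_re, Complex.ofReal_re,
      Complex.ofReal_im, Complex.sub_im, Complex.sub_re, Complex.one_im] at this
    nlinarith
  · have := congrArg Complex.im (T_sq ξ τ)
    simp only [sq, Complex.add_im, Complex.one_re, Complex.mul_re, Complex.ofReal_re,
      Complex.ofReal_im, Complex.sub_im, Complex.sub_re, Complex.one_im, Complex.mul_im] at this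
    nlinarith

/-- real part of a quotient in coordinates -/
lemma re_div (u t : ℂ) : (u / t).re = (u.re * t.re + u.im * t.im) / (t.re ^ 2 + t.im ^ 2) := by
  rw [Complex.div_re, Complex.normSq_apply]
  ring

/-- algebraic bound for `|T|²` -/
lemma N_le {a b c d τ : ℝ} (hτ0 : 0 ≤ τ) (hτ1 : τ ≤ 1)
    (h1 : c ^ 2 - d ^ 2 = (1 - τ) + τ * (a ^ 2 - b ^ 2)) (h2 : c * d = τ * (a * b)) :
    c ^ 2 + d ^ 2 ≤ (1 - τ) + τ * (a ^ 2 + b ^ 2) := by
  have h3 : (c ^ 2 + d ^ 2) ^ 2 = (c ^ 2 - d ^ 2) ^ 2 + 4 * (c * d) ^ 2 := by ring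
  rw [h1, h2] at h3
  have h4 : (c ^ 2 + d ^ 2) ^ 2 ≤ ((1 - τ) + τ * (a ^ 2 + b ^ 2)) ^ 2 := by
    rw [h3]
    nlinarith [mul_nonneg (mul_nonneg hτ0 (sub_nonneg.mpr hτ1)) (sq_nonneg b)]
  have h5 : 0 ≤ (1 - τ) + τ * (a ^ 2 + b ^ 2) := by
    have := mul_nonneg hτ0 (add_nonneg (sq_nonneg a) (sq_nonneg b))
    linarith
  exact abs_le_of_sq_le_sq' h4 h5 |>.2

/-- lower bound for the rotated real part -/
lemma x_sq {a b c d τ : ℝ} (hτ1 : τ ≤ 1)
    (h1 : c ^ 2 - d ^ 2 = (1 - τ) + τ * (a ^ 2 - b ^ 2)) (h2 : c * d = τ * (a * b)) :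
    τ * (a ^ 2 + b ^ 2) ^ 2 - (1 - τ) * (a ^ 2 + b ^ 2) ≤ (a * c + b * d) ^ 2 := by
  have h3 : (a * c + b * d) ^ 2 = (b * c - a * d) ^ 2 +
      ((a ^ 2 - b ^ 2) * (c ^ 2 - d ^ 2) + 4 * (a * b) * (c * d)) := by ring
  rw [h3, h1, h2]
  nlinarith [sq_nonneg (b * c - a * d), mul_nonneg (sub_nonneg.mpr hτ1) (sq_nonneg a)]

lemma x_nonneg {a b c d τ : ℝ} (ha : 0 < a) (hc : 0 < c) (hτ0 : 0 ≤ τ)
    (h2 : c * d = τ * (a * b)) : 0 ≤ a * c + b * d := by
  have h3 : 0 ≤ c * (b * d) := by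
    have : c * (b * d) = τ * a * b ^ 2 := by
      calc c * (b * d) = b * (c * d) := by ring
        _ = τ * a * b ^ 2 := by rw [h2]; ring
    rw [this]; positivity
  have h4 : 0 ≤ b * d := nonneg_of_mul_nonneg_right h3 hc
  positivity

lemma boundA1 {ξ : ℂ} (h : 0 < ξ.re) (hr : 1 ≤ ξ.re ^ 2 + ξ.im ^ 2) {τ : ℝ}
    (hτ : τ ∈ Icc (0 : ℝ) 1) : 2 * τ - 1 ≤ (ξ / T ξ τ).re := by
  obtain ⟨hc, h1, h2⟩ := coords h hτ
  rw [re_div]
  set a := ξ.re
  set b := ξ.im
  set c := (T ξ τ).re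
  set d := (T ξ τ).im
  have hN := N_le hτ.1 hτ.2 h1 h2
  have hx := x_sq hτ.2 h1 h2
  have hx0 := x_nonneg h hc hτ.1 h2
  have hNpos : 0 < c ^ 2 + d ^ 2 := by positivity
  rw [le_div_iff₀ hNpos]
  by_cases hk : 2 * τ - 1 ≤ 0
  · nlinarith
  · push Not at hk
    set r := a ^ 2 + b ^ 2
    have hNr : c ^ 2 + d ^ 2 ≤ r := by nlinarith [hτ.1, hτ.2]
    have h5 : ((2 * τ - 1) * r) ^ 2 ≤ (a * c + b * d) ^ 2 := by
      refine le_trans ?_ hx
      have e1 : (2 * τ - 1) * r ^ 2 ≤ τ * r ^ 2 - (1 - τ) * r := by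
        nlinarith [hτ.2, mul_nonneg (sub_nonneg.mpr hτ.2) (mul_nonneg (by linarith : (0:ℝ) ≤ r)
          (by linarith : (0:ℝ) ≤ r - 1))]
      have e2 : ((2 * τ - 1) * r) ^ 2 ≤ (2 * τ - 1) * r ^ 2 := by
        have : (2 * τ - 1) * (2 * τ - 1) ≤ (2 * τ - 1) * 1 :=
          mul_le_mul_of_nonneg_left (by linarith [hτ.2]) hk.le
        nlinarith [sq_nonneg r]
      linarith
    have h6 : (2 * τ - 1) * r ≤ a * c + b * d := (abs_le_of_sq_le_sq' h5 hx0).2
    nlinarith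

lemma boundA2 {ξ : ℂ} (h : 0 < ξ.re) (hr : 4 / 5 ≤ ξ.re ^ 2 + ξ.im ^ 2)
    (hr1 : ξ.re ^ 2 + ξ.im ^ 2 ≤ 1) {τ : ℝ}
    (hτ : τ ∈ Icc (0 : ℝ) 1) : 9 / 5 * τ - 1 ≤ (ξ / T ξ τ).re := by
  obtain ⟨hc, h1, h2⟩ := coords h hτ
  rw [re_div]
  set a := ξ.re
  set b := ξ.im
  set c := (T ξ τ).re
  set d := (T ξ τ).im
  have hN := N_le hτ.1 hτ.2 h1 h2
  have hx := x_sq hτ.2 h1 h2
  have hx0 := x_nonneg h hc hτ.1 h2
  have hNpos : 0 < c ^ 2 + d ^ 2 := by positivity
  rw [le_div_iff₀ hNpos]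
  by_cases hk : 9 / 5 * τ - 1 ≤ 0
  · nlinarith
  · push Not at hk
    set r := a ^ 2 + b ^ 2
    have hNr : c ^ 2 + d ^ 2 ≤ 1 := by nlinarith [hτ.1, hτ.2]
    have h5 : (9 / 5 * τ - 1) ^ 2 ≤ (a * c + b * d) ^ 2 := by
      refine le_trans ?_ hx
      have e1 : 4 / 5 * (9 / 5 * τ - 1) ≤ τ * r ^ 2 - (1 - τ) * r := by
        have e3 : τ * r ^ 2 - (1 - τ) * r = r * (τ * r - (1 - τ)) := by ring
        have e4 : 9 / 5 * τ - 1 ≤ τ * r - (1 - τ) := by nlinarith [hτ.1]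
        rw [e3]
        nlinarith
      have e2 : (9 / 5 * τ - 1) ^ 2 ≤ 4 / 5 * (9 / 5 * τ - 1) := by
        nlinarith [hτ.2]
      linarith
    have h6 : (9 / 5 * τ - 1) ≤ a * c + b * d := (abs_le_of_sq_le_sq' h5 hx0).2
    nlinarith

lemma boundB {ξ : ℂ} (h : 0 < ξ.re) (hr : ξ.re ^ 2 + ξ.im ^ 2 ≤ 4 / 5) {K : ℝ} (hK0 : 0 < K)
    (hK : 1 + (ξ.re ^ 2 + ξ.im ^ 2) ≤ K ^ 2) {s : ℝ} (hs : s * ξ.im = |ξ.im|) (hs1 : |s| = 1)
    {τ : ℝ} (hτ : τ ∈ Icc (0 : ℝ) 1) :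
    3 * τ - 3 / 2 ≤ ((K * (1 + s * Complex.I)) / T ξ τ).re := by
  obtain ⟨hc, h1, h2⟩ := coords h hτ
  rw [re_div]
  set a := ξ.re
  set b := ξ.im
  set c := (T ξ τ).re
  set d := (T ξ τ).im
  have hN := N_le hτ.1 hτ.2 h1 h2
  have hNpos : 0 < c ^ 2 + d ^ 2 := by positivity
  have hre : ((K : ℂ) * (1 + s * Complex.I)).re = K := by simp
  have him : ((K : ℂ) * (1 + s * Complex.I)).im = K * s := by simp
  rw [hre, him, le_div_iff₀ hNpos]
  have hs2 : s ^ 2 = 1 := by rw [← sq_abs, hs1]; norm_num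
  have hsd : 0 ≤ s * d := by
    have h3 : 0 ≤ c * (s * d) := by
      have : c * (s * d) = τ * a * |b| := by
        calc c * (s * d) = s * (c * d) := by ring
          _ = τ * a * (s * b) := by rw [h2]; ring
          _ = τ * a * |b| := by rw [hs]
      rw [this]
      have := hτ.1
      positivity
    exact nonneg_of_mul_nonneg_right h3 hc
  set y := c + s * d with hy
  have hy0 : 0 ≤ y := by positivity
  have hyN : c ^ 2 + d ^ 2 ≤ y ^ 2 := by
    have : y ^ 2 = c ^ 2 + d ^ 2 + 2 * c * (s * d) + (s ^ 2 - 1) * d ^ 2 := by rw [hy]; ring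
    rw [this, hs2]
    have := mul_nonneg hc.le hsd
    nlinarith
  have e0 : K * c + K * s * d = K * y := by rw [hy]; ring
  rw [e0]
  by_cases hk : 3 * τ - 3 / 2 ≤ 0
  · have : 0 ≤ K * y := by positivity
    nlinarith
  · push Not at hk
    set N := c ^ 2 + d ^ 2
    set r := a ^ 2 + b ^ 2
    have hr0 : 0 ≤ r := by positivity
    have h5 : (3 * τ - 3 / 2) ^ 2 * N ≤ K ^ 2 := by
      have e1 : (3 * τ - 3 / 2) ^ 2 ≤ 9 / 4 * (2 * τ - 1) := by nlinarith [hτ.2]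
      have e2 : (2 * τ - 1) * N ≤ (2 * τ - 1) * ((1 - τ) + τ * r) :=
        mul_le_mul_of_nonneg_left hN (by linarith)
      have g0 : 9 / 4 * ((2 * τ - 1) * (1 - τ)) ≤ 1 := by
        have : (2 * τ - 1) * (1 - τ) = 1 / 8 - 2 * (τ - 3 / 4) ^ 2 := by ring
        rw [this]
        have := sq_nonneg (τ - 3 / 4)
        linarith
      have g1 : 9 / 4 * ((2 * τ - 1) * (1 - τ / 5)) ≤ 9 / 5 := by
        have : (2 * τ - 1) * (1 - τ / 5) = 4 / 5 - (1 - τ) * (9 / 5 - 2 / 5 * τ) := by ring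
        rw [this]
        have := mul_nonneg (sub_nonneg.mpr hτ.2) (by linarith [hτ.2] : (0 : ℝ) ≤ 9 / 5 - 2 / 5 * τ)
        linarith
      have e3 : 9 / 4 * ((2 * τ - 1) * ((1 - τ) + τ * r)) ≤ 1 + r := by
        have e : 9 / 4 * ((2 * τ - 1) * ((1 - τ) + τ * r)) =
            (1 - 5 / 4 * r) * (9 / 4 * ((2 * τ - 1) * (1 - τ))) +
              (5 / 4 * r) * (9 / 4 * ((2 * τ - 1) * (1 - τ / 5))) := by ring
        rw [e]
        have k0 := mul_le_mul_of_nonneg_left g0 (by linarith : (0 : ℝ) ≤ 1 - 5 / 4 * r)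
        have k1 := mul_le_mul_of_nonneg_left g1 (by linarith : (0 : ℝ) ≤ 5 / 4 * r)
        linarith
      have e4 : (3 * τ - 3 / 2) ^ 2 * N ≤ 9 / 4 * (2 * τ - 1) * N :=
        mul_le_mul_of_nonneg_right e1 hNpos.le
      have e5 : 9 / 4 * (2 * τ - 1) * N = 9 / 4 * ((2 * τ - 1) * N) := by ring
      linarith
    have h6 : ((3 * τ - 3 / 2) * N) ^ 2 ≤ (K * y) ^ 2 := by
      calc ((3 * τ - 3 / 2) * N) ^ 2 = ((3 * τ - 3 / 2) ^ 2 * N) * N := by ring
        _ ≤ K ^ 2 * y ^ 2 := mul_le_mul h5 hyN hNpos.le (by positivity)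
        _ = (K * y) ^ 2 := by ring
    exact (abs_le_of_sq_le_sq' h6 (by positivity)).2

lemma K_sq (ξ : ℂ) (h : 0 < ξ.re) : 1 + (ξ.re ^ 2 + ξ.im ^ 2) ≤ ‖1 + ξ‖ ^ 2 := by
  rw [Complex.sq_norm, Complex.normSq_apply]
  simp only [Complex.add_re, Complex.one_re, Complex.add_im, Complex.one_im]
  nlinarith

lemma norm_sq_eq (ξ : ℂ) : ‖ξ‖ ^ 2 = ξ.re ^ 2 + ξ.im ^ 2 := by
  rw [Complex.sq_norm, Complex.normSq_apply]; ring

lemma numA (m : ℝ) (hm : 100 ≤ m) : 39 / 20 ≤ (2 * m + 1) * (m / ((m + 1) * (m + 2))) := by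
  rw [mul_div_assoc', le_div_iff₀ (by positivity)]
  nlinarith

lemma numB (m : ℝ) (hm : 100 ≤ m) :
    3 / 2 ≤ (2 * m + 1) * ((4 / 5 * m - 1 / 5) / ((m + 1) * (m + 2))) := by
  rw [mul_div_assoc', le_div_iff₀ (by positivity)]
  nlinarith

lemma numC (m : ℝ) (hm : 100 ≤ m) :
    117 / 40 ≤ (2 * m + 1) * ((3 / 2 * m) / ((m + 1) * (m + 2))) := by
  rw [mul_div_assoc', le_div_iff₀ (by positivity)]
  nlinarith

/-- bound for fixed points in the right half plane -/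
lemma main_bound (m : ℕ) (hm : 100 ≤ m) {ξ : ℂ} (h : 0 < ξ.re) (hfix : (p m).eval ξ = ξ)
    (h1 : ξ ≠ 1) : ‖(derivative (p m)).eval ξ‖ ≤ 99 / 100 * (2 * m + 1) := by
  have hmR : (100 : ℝ) ≤ m := by exact_mod_cast hm
  have hk := congrArg norm (key m h hfix h1)
  rw [norm_mul, norm_mul] at hk
  set D := ‖(derivative (p m)).eval ξ‖ with hD
  set K := ‖1 + ξ‖ with hK
  set G := ‖F m ξ‖ with hG
  have hk2 : D * (K * G) = 2 := by rw [hk]; norm_num
  have hD0 : 0 ≤ D := norm_nonneg _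
  have hK0 : 0 ≤ K := norm_nonneg _
  have hG0 : 0 ≤ G := norm_nonneg _
  have hKs : 1 + (ξ.re ^ 2 + ξ.im ^ 2) ≤ K ^ 2 := K_sq ξ h
  set r := ξ.re ^ 2 + ξ.im ^ 2 with hr
  have hn : ‖ξ‖ ^ 2 = r := norm_sq_eq ξ
  have hr0 : 0 ≤ r := by positivity
  have hk4 : D ^ 2 * (K ^ 2 * G ^ 2) = 4 := by
    have : (D * (K * G)) ^ 2 = 4 := by rw [hk2]; norm_num
    nlinarith
  by_contra hcon
  push Not at hcon
  have hm1 : (0 : ℝ) < m + 1 := by positivity
  have hm2 : (0 : ℝ) < m + 2 := by positivity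
  rcases le_or_gt 1 r with hr1 | hr1
  · -- case A
    have hF := F_lower m h ξ 2 1 fun τ hτ => boundA1 h hr1 hτ
    set L : ℝ := 2 / (m + 2) - 1 / (m + 1) with hL
    have hL' : L = m / ((m + 1) * (m + 2)) := by rw [hL]; field_simp; ring
    have hL0 : 0 < L := by rw [hL']; positivity
    have hLb : 39 / 20 ≤ (2 * m + 1) * L := by
      rw [hL']; exact numA m hmR
    have hr3 : r ≤ 3 := by
      by_contra h3
      push Not at h3
      have hKx : ‖ξ‖ ≤ K := by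
        have : ‖ξ‖ ^ 2 ≤ K ^ 2 := by rw [hn]; linarith
        exact (abs_le_of_sq_le_sq' this hK0).2
      have h4 : L ≤ K * G := hF.trans (mul_le_mul_of_nonneg_right hKx hG0)
      have h5 : D * L ≤ 2 := by
        rw [← hk2]; exact mul_le_mul_of_nonneg_left h4 hD0
      have h6 : (2 : ℝ) ^ m ≤ D := by
        have e1 : D = (I m)⁻¹ * ‖1 - ξ ^ 2‖ ^ m := by
          rw [hD, p_deriv_eval, norm_mul, norm_pow, norm_inv, Complex.norm_real,
            Real.norm_of_nonneg (I_pos m).le]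
        have e2 : 2 ≤ ‖1 - ξ ^ 2‖ := by
          have := norm_sub_norm_le (ξ ^ 2) 1
          rw [norm_pow, hn, norm_one, norm_sub_rev] at this
          linarith
        have e3 : (1 : ℝ) ≤ (I m)⁻¹ := (one_le_inv₀ (I_pos m)).mpr (I_le_one m)
        rw [e1]
        calc (2 : ℝ) ^ m ≤ ‖1 - ξ ^ 2‖ ^ m := pow_le_pow_left₀ (by norm_num) e2 m
          _ = 1 * ‖1 - ξ ^ 2‖ ^ m := (one_mul _).symm
          _ ≤ (I m)⁻¹ * ‖1 - ξ ^ 2‖ ^ m := by gcongr
      have h7 : (8 * (m - 3) : ℝ) ≤ 2 ^ m := by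
        obtain ⟨k, rfl⟩ : ∃ k, m = k + 3 := ⟨m - 3, by omega⟩
        have : (k : ℝ) < 2 ^ k := by exact_mod_cast Nat.lt_two_pow_self
        push_cast
        rw [pow_add]
        linarith
      have h8 : (8 * (m - 3) : ℝ) * L ≤ 2 :=
        (mul_le_mul_of_nonneg_right (h7.trans h6) hL0.le).trans h5
      rw [hL', mul_div_assoc', div_le_iff₀ (by positivity)] at h8
      nlinarith
    have h4 : L ^ 2 ≤ r * G ^ 2 := by
      have := pow_le_pow_left₀ hL0.le hF 2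
      rw [mul_pow, hn] at this
      exact this
    have h5 : D ^ 2 * L ^ 2 ≤ 3 := by
      have e1 : 4 / 3 * (r * G ^ 2) ≤ K ^ 2 * G ^ 2 := by
        have : 4 / 3 * r ≤ K ^ 2 := by linarith
        nlinarith [sq_nonneg G]
      have e2 : D ^ 2 * (4 / 3 * (r * G ^ 2)) ≤ 4 :=
        (mul_le_mul_of_nonneg_left e1 (sq_nonneg D)).trans hk4.le
      have e3 : D ^ 2 * L ^ 2 ≤ D ^ 2 * (r * G ^ 2) := mul_le_mul_of_nonneg_left h4 (sq_nonneg D)
      linarith
    have h6 : 99 / 100 * (39 / 20) ≤ D * L := by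
      calc (99 / 100 * (39 / 20) : ℝ) ≤ 99 / 100 * ((2 * m + 1) * L) := by gcongr
        _ = (99 / 100 * (2 * m + 1)) * L := by ring
        _ ≤ D * L := by gcongr
    have h7 := pow_le_pow_left₀ (by norm_num) h6 2
    rw [mul_pow D L] at h7
    norm_num at h7
    linarith
  · rcases le_or_gt (4 / 5) r with hr2 | hr2
    · -- case B
      have hF := F_lower m h ξ (9 / 5) 1 fun τ hτ => boundA2 h hr2 hr1.le hτ
      set L : ℝ := 9 / 5 / (m + 2) - 1 / (m + 1) with hL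
      have hL' : L = (4 / 5 * m - 1 / 5) / ((m + 1) * (m + 2)) := by rw [hL]; field_simp; ring
      have hL0 : 0 < L := by
        rw [hL']
        apply div_pos (by linarith) (by positivity)
      have hLb : 3 / 2 ≤ (2 * m + 1) * L := by
        rw [hL']; exact numB m hmR
      have h4 : L ^ 2 ≤ r * G ^ 2 := by
        have := pow_le_pow_left₀ hL0.le hF 2
        rw [mul_pow, hn] at this
        exact this
      have h5 : D ^ 2 * L ^ 2 ≤ 2 := by
        have e1 : 2 * (r * G ^ 2) ≤ K ^ 2 * G ^ 2 := by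
          have : 2 * r ≤ K ^ 2 := by linarith
          nlinarith [sq_nonneg G]
        have e2 : D ^ 2 * (2 * (r * G ^ 2)) ≤ 4 :=
          (mul_le_mul_of_nonneg_left e1 (sq_nonneg D)).trans hk4.le
        have e3 : D ^ 2 * L ^ 2 ≤ D ^ 2 * (r * G ^ 2) :=
          mul_le_mul_of_nonneg_left h4 (sq_nonneg D)
        linarith
      have h6 : 99 / 100 * (3 / 2) ≤ D * L := by
        calc (99 / 100 * (3 / 2) : ℝ) ≤ 99 / 100 * ((2 * m + 1) * L) := by gcongr
          _ = (99 / 100 * (2 * m + 1)) * L := by ring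
          _ ≤ D * L := by gcongr
      have h7 := pow_le_pow_left₀ (by norm_num) h6 2
      rw [mul_pow D L] at h7
      norm_num at h7
      linarith
    · -- case C
      obtain ⟨s, hs, hs1⟩ : ∃ s : ℝ, s * ξ.im = |ξ.im| ∧ |s| = 1 := by
        rcases le_total 0 ξ.im with h2 | h2
        · exact ⟨1, by rw [abs_of_nonneg h2, one_mul], by norm_num⟩
        · exact ⟨-1, by rw [abs_of_nonpos h2]; ring, by norm_num⟩
      have hKpos : 0 < K := by
        rcases hK0.eq_or_lt with h2 | h2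
        · rw [← h2] at hKs
          linarith
        · exact h2
      have hF := F_lower m h ((K : ℂ) * (1 + s * Complex.I)) 3 (3 / 2)
        fun τ hτ => boundB h hr2.le hKpos hKs hs hs1 hτ
      have hs2 : s ^ 2 = 1 := by rw [← sq_abs, hs1]; norm_num
      have hu : ‖(K : ℂ) * (1 + s * Complex.I)‖ ^ 2 = 2 * K ^ 2 := by
        rw [norm_sq_eq]
        have e1 : ((K : ℂ) * (1 + s * Complex.I)).re = K := by simp
        have e2 : ((K : ℂ) * (1 + s * Complex.I)).im = K * s := by simp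
        rw [e1, e2, mul_pow, hs2]; ring
      set L : ℝ := 3 / (m + 2) - 3 / 2 / (m + 1) with hL
      have hL' : L = (3 / 2 * m) / ((m + 1) * (m + 2)) := by rw [hL]; field_simp; ring
      have hL0 : 0 < L := by rw [hL']; positivity
      have hLb : 117 / 40 ≤ (2 * m + 1) * L := by
        rw [hL']; exact numC m hmR
      have h4 : L ^ 2 ≤ 2 * K ^ 2 * G ^ 2 := by
        have := pow_le_pow_left₀ hL0.le hF 2
        rw [mul_pow, hu] at this
        exact this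
      have h5 : D ^ 2 * L ^ 2 ≤ 8 := by
        have e3 : D ^ 2 * L ^ 2 ≤ D ^ 2 * (2 * K ^ 2 * G ^ 2) :=
          mul_le_mul_of_nonneg_left h4 (sq_nonneg D)
        linarith
      have h6 : 99 / 100 * (117 / 40) ≤ D * L := by
        calc (99 / 100 * (117 / 40) : ℝ) ≤ 99 / 100 * ((2 * m + 1) * L) := by gcongr
          _ = (99 / 100 * (2 * m + 1)) * L := by ring
          _ ≤ D * L := by gcongr
      have h7 := pow_le_pow_left₀ (by norm_num) h6 2
      rw [mul_pow D L] at h7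
      norm_num at h7
      linarith

/-- the only fixed point on the imaginary axis is `0` -/
lemma imag_fixed (m : ℕ) (hm : 1 ≤ m) {ξ : ℂ} (h : ξ.re = 0) (hfix : (p m).eval ξ = ξ) :
    ξ = 0 := by
  by_contra hne
  obtain ⟨y, rfl⟩ : ∃ y : ℝ, ξ = Complex.I * y := by
    refine ⟨ξ.im, ?_⟩
    apply Complex.ext <;> simp [h]
  have hy : y ≠ 0 := by
    intro h0; apply hne; rw [h0]; simp
  have h2 : (q m).eval (Complex.I * y) = (I m : ℂ) * (Complex.I * y) := by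
    have := congrArg (fun x => (I m : ℂ) * x) hfix
    simp only [p_eval] at this
    rwa [mul_inv_cancel_left₀ (Ic_ne m)] at this
  set S : ℝ := ∑ k ∈ Finset.range (m + 1), (m.choose k : ℝ) / (2 * k + 1) * y ^ (2 * k) with hS
  have h3 : (q m).eval (Complex.I * y) = (Complex.I * y) * (S : ℂ) := by
    unfold q
    rw [eval_finsetSum, hS, Complex.ofReal_sum, Finset.mul_sum]
    apply Finset.sum_congr rfl
    intro k _
    simp only [eval_mul, eval_C, eval_pow, eval_X]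
    push_cast
    have e : (Complex.I * (y : ℂ)) ^ (2 * k + 1) =
        Complex.I * y * ((-1) ^ k * (y : ℂ) ^ (2 * k)) := by
      rw [pow_succ, pow_mul, mul_pow Complex.I (y : ℂ) 2, Complex.I_sq, mul_pow, ← pow_mul]
      ring
    have e2 : ((-1 : ℂ) ^ k) * (-1) ^ k = 1 := by rw [← mul_pow]; norm_num
    rw [e]
    calc _ = ((-1 : ℂ) ^ k * (-1) ^ k) *
          (Complex.I * y * ((m.choose k : ℂ) / (2 * k + 1) * (y : ℂ) ^ (2 * k))) := by ring
      _ = _ := by rw [e2, one_mul]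
  rw [h3, mul_comm] at h2
  have h4 : (Complex.I * (y : ℂ)) ≠ 0 := hne
  have h5 : (S : ℂ) = (I m : ℂ) := mul_right_cancel₀ h4 h2
  have h6 : S = I m := by exact_mod_cast h5
  have h7 : 1 < S := by
    have hsub : ({0, 1} : Finset ℕ) ⊆ Finset.range (m + 1) := by
      intro k hk
      simp only [Finset.mem_insert, Finset.mem_singleton] at hk
      rw [Finset.mem_range]; omega
    have h8 : ∑ k ∈ ({0, 1} : Finset ℕ), (m.choose k : ℝ) / (2 * k + 1) * y ^ (2 * k) ≤ S := by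
      apply Finset.sum_le_sum_of_subset_of_nonneg hsub
      intro k _ _
      have : 0 ≤ y ^ (2 * k) := by rw [pow_mul]; positivity
      positivity
    rw [Finset.sum_pair (by norm_num)] at h8
    simp at h8
    have h9 : 0 < (m : ℝ) / (2 + 1) * y ^ 2 := by positivity
    linarith
  have := I_le_one m
  linarith

/-- All fixed point multipliers are at most `(99/100) deg`. -/
lemma all_bound (m : ℕ) (hm : 100 ≤ m) (ξ : ℂ) (hfix : (p m).eval ξ = ξ) :
    ‖(derivative (p m)).eval ξ‖ ≤ 99 / 100 * (2 * m + 1) := by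
  have hmR : (100 : ℝ) ≤ m := by exact_mod_cast hm
  have hone : ∀ ξ : ℂ, 0 < ξ.re → (p m).eval ξ = ξ →
      ‖(derivative (p m)).eval ξ‖ ≤ 99 / 100 * (2 * m + 1) := by
    intro ξ h hf
    by_cases h1 : ξ = 1
    · rw [p_deriv_eval, h1]
      have : (1 - (1 : ℂ) ^ 2) ^ m = 0 := by
        rw [one_pow, sub_self, zero_pow (by omega)]
      rw [this, mul_zero, norm_zero]
      positivity
    · exact main_bound m hm h hf h1
  rcases lt_trichotomy ξ.re 0 with h | h | h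
  · have h2 := hone (-ξ) (by simpa using h) (by rw [p_neg, hfix])
    rw [p_deriv_eval] at h2 ⊢
    simpa using h2
  · have h0 := imag_fixed m (by omega) h hfix
    rw [p_deriv_eval, h0]
    have : (1 - (0 : ℂ) ^ 2) ^ m = 1 := by simp
    rw [this, mul_one, norm_inv, Complex.norm_real, Real.norm_of_nonneg (I_pos m).le]
    have h3 : (I m)⁻¹ ≤ m + 1 := by
      rw [inv_le_comm₀ (I_pos m) (by positivity)]
      have := I_ge m
      rwa [one_div] at this
    linarith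
  · exact hone ξ h hfix

lemma natDegree_p (m : ℕ) (hm : 1 ≤ m) : (p m).natDegree = 2 * m + 1 := by
  have h1 : derivative (p m) = C ((I m : ℂ)⁻¹) * (1 - X ^ 2) ^ m := by
    unfold p; rw [derivative_C_mul, derivative_q]
  have h2 : (1 - X ^ 2 : ℂ[X]).natDegree = 2 := by compute_degree!
  have h3 : (derivative (p m)).natDegree = 2 * m := by
    rw [h1, natDegree_C_mul (inv_ne_zero (Ic_ne m)), natDegree_pow, h2]; ring
  have h4 : (p m).natDegree ≠ 0 := by
    intro h0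
    rw [natDegree_eq_zero] at h0
    obtain ⟨c, hc⟩ := h0
    rw [← hc, derivative_C, natDegree_zero] at h3
    omega
  have h5 := natDegree_derivative (p m)
  omega

lemma critValues_p (m : ℕ) (hm : 1 ≤ m) : critValues (p m) = {1, -1} := by
  have h1 : {z : ℂ | (derivative (p m)).eval z = 0} = {1, -1} := by
    ext z
    simp only [Set.mem_ofPred_eq, p_deriv_eval, mem_insert_iff, mem_singleton_iff]
    constructor
    · intro h
      rcases mul_eq_zero.mp h with h2 | h2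
      · exact absurd h2 (inv_ne_zero (Ic_ne m))
      · have h3 := eq_zero_of_pow_eq_zero h2
        have h4 : (1 - z) * (1 + z) = 0 := by linear_combination h3
        rcases mul_eq_zero.mp h4 with h5 | h5
        · left; linear_combination -h5
        · right; linear_combination h5
    · rintro (rfl | rfl)
      · rw [one_pow, sub_self, zero_pow (by omega), mul_zero]
      · rw [neg_one_sq, sub_self, zero_pow (by omega), mul_zero]
  unfold critValues
  rw [h1, image_pair]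
  simp only [p_neg, p_one]

lemma cv_p (m : ℕ) (hm : 1 ≤ m) : cv (p m) = 2 := by
  unfold cv
  rw [critValues_p m hm]
  apply ncard_pair
  norm_num

lemma Lam_le (m : ℕ) (hm : 100 ≤ m) : Lam (p m) ≤ 99 / 100 * (p m).natDegree := by
  rw [natDegree_p m (by omega)]
  apply csSup_le
  · refine ⟨_, 0, ?_, rfl⟩
    rw [p_eval, q_zero, mul_zero]
  · rintro x ⟨ξ, hξ, rfl⟩
    have := all_bound m hm ξ hξ
    push_cast
    exact this

/-- **Negative answer to Q1.** -/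
theorem result :
    (∀ m : ℕ, 100 ≤ m → ∃ p : ℂ[X], p.natDegree = 2 * m + 1 ∧ (critValues p).ncard = 2 ∧
      ∀ ξ : ℂ, p.eval ξ = ξ → ‖p.derivative.eval ξ‖ ≤ 99 / 100 * p.natDegree) ∧
    (∃ ε : ℝ, 0 < ε ∧ ∀ δ : ℝ, 0 < δ → ∃ p : ℂ[X], 2 ≤ p.natDegree ∧
      (critValues p).Finite ∧ (multModuli p).Finite ∧ (multModuli p).Nonempty ∧
      (cv p : ℝ) < δ * p.natDegree ∧ Lam p < (1 - ε) * p.natDegree) := by
  constructor
  · intro m hm
    refine ⟨p m, natDegree_p m (by omega), cv_p m (by omega), fun ξ hξ => ?_⟩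
    rw [natDegree_p m (by omega)]
    have := all_bound m hm ξ hξ
    push_cast
    exact this
  · refine ⟨1 / 200, by norm_num, fun δ hδ => ?_⟩
    obtain ⟨N, hN⟩ := exists_nat_gt (2 / δ)
    set m := N + 100 with hm
    have hm1 : 1 ≤ m := by omega
    have hdeg := natDegree_p m hm1
    have hmult : (multModuli (p m)).Finite := by
      have h1 : {ξ : ℂ | (p m).eval ξ = ξ} ⊆ {ξ : ℂ | (p m - X).IsRoot ξ} := by
        intro ξ hξ
        have : (p m).eval ξ = ξ := hξ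
        simp [IsRoot, this]
      have hne : p m - X ≠ 0 := by
        intro h0
        have : p m = X := sub_eq_zero.mp h0
        rw [this, natDegree_X] at hdeg
        omega
      have h2 := (Polynomial.finite_setOfPred_isRoot hne).subset h1
      refine (h2.image fun ξ => ‖(derivative (p m)).eval ξ‖).subset ?_
      rintro x ⟨ξ, hξ, rfl⟩
      exact ⟨ξ, hξ, rfl⟩
    refine ⟨p m, by omega, ?_, hmult, ?_, ?_, ?_⟩
    · rw [critValues_p m hm1]; exact toFinite _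
    · exact ⟨_, 0, by rw [p_eval, q_zero, mul_zero], rfl⟩
    · rw [cv_p m hm1, hdeg]
      rw [div_lt_iff₀ hδ] at hN
      have : (N : ℝ) ≤ ((2 * m + 1 : ℕ) : ℝ) := by exact_mod_cast (by omega)
      push_cast at this ⊢
      nlinarith
    · have h1 := Lam_le m (by omega)
      have h2 : (0 : ℝ) < (p m).natDegree := by rw [hdeg]; positivity
      linarith

end Pool.Agent.Results.MP_b61545_an.DoubleStar
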